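import Mathlib
import Pool.Agent.X137.WDefs
import Pool.Agent.X137.WRate

/-! For `0 < α < 1` no exponent `χ > 1` is a rate, in any dimension and for any weight profile `f₀`,
because the first edge times shift time by a random amount of order one. For `α > 3/5` this refutes
the rate statement of Q1. -/

namespace Pool.Agent.Results.MP_d9d0cb_pr.NoRateAboveOne

open MeasureTheory Set Filter
open Pool.Agent.X137.WModel

/-- For every `d ≥ 1`, `0 < α < 1`, every Lipschitz positive `f₀` on the unit sphere and every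
norm `N` on `ℝ ^ d` (in particular the norm whose unit ball is the limit shape of standard
exponential first passage percolation), with `B` the unit ball of the weighted metric `D` built from
`N`: if `α > 3/5` then `2 / (5 (1 - α)) > 1`; independent edge times exist; and for all
independent edge times and all `χ > 1` the probability `1 - P(E(χ, t₀))` stays above a positive
constant as `t₀ → ∞`, so rate `χ` fails. -/
theorem result (d : ℕ) (hd : 1 ≤ d) (α : ℝ) (hα : 0 < α) (hα1 : α < 1)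
    (f₀ : Sp d → ℝ) (K : NNReal) (hlip : LipschitzOnWith K f₀ (Metric.sphere (0 : Sp d) 1))
    (hpos : ∀ u ∈ Metric.sphere (0 : Sp d) 1, 0 < f₀ u)
    (N : Seminorm ℝ (Sp d)) (hN : ∀ x, N x = 0 → x = 0) :
    (3 / 5 < α → 1 < 2 / (5 * (1 - α))) ∧
    (∃ (Ω : Type) (_ : MeasurableSpace Ω) (P : Measure Ω) (X : Sym2 (Vtx d) → Ω → ℝ),
      IsProbabilityMeasure P ∧ EdgeTimes P (wfun α f₀) X) ∧
    ∀ (Ω : Type) [MeasurableSpace Ω] (P : Measure Ω) [IsProbabilityMeasure P]
      (X : Sym2 (Vtx d) → Ω → ℝ), EdgeTimes P (wfun α f₀) X → ∀ χ : ℝ, 1 < χ →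
      (∃ c : ℝ, 0 < c ∧ ∀ᶠ t₀ : ℝ in atTop,
        c ≤ 1 - (P (goodEvent X (wball N (wfun α f₀)) α χ t₀)).toReal) ∧
      ¬ RateHolds P X (wball N (wfun α f₀)) α χ := by
  have h1α : 0 < 1 - α := by linarith
  refine ⟨?_, exists_edgeTimes (fun z hz => wfun_pos hpos hz), ?_⟩
  · intro h
    rw [lt_div_iff₀ (by positivity)]; linarith
  intro Ω _ P _ X hX χ hχ
  have main : ∃ c : ℝ, 0 < c ∧ ∀ᶠ t₀ : ℝ in atTop,
      c ≤ 1 - (P (goodEvent X (wball N (wfun α f₀)) α χ t₀)).toReal := by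
    obtain ⟨c, hc, hb⟩ := Pool.Agent.X137.WRate.good_bound
      (fun z hz => wfun_pos (α := α) hpos hz) hX
    obtain ⟨R, hR⟩ := Pool.Agent.X137.WBall.wball_bounded hd (by linarith) hα1 hlip N hN
    obtain ⟨z₀, hz₀, hne⟩ := Pool.Agent.X137.WBall.wball_nonzero hd hα1 hpos N
    have hβ : 1 ≤ 1 / (1 - α) := by
      rw [le_div_iff₀ h1α]; linarith
    refine ⟨c, hc, ?_⟩
    filter_upwards [Pool.Agent.X137.WRate.eventually_ratio hβ hχ, eventually_ge_atTop 0] with t ht ht0
    obtain ⟨z, hz1, hz2⟩ := Pool.Agent.X137.WRate.exists_point hR hz₀ hne ht.1 ht.2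
    exact hb _ α χ t z ht0 hz1 hz2
  refine ⟨main, fun hrate => ?_⟩
  obtain ⟨c, hc, hev⟩ := main
  have h1 := hrate 1 one_pos
  have h2 : ∀ᶠ t₀ : ℝ in atTop,
      c ≤ t₀ ^ (1 : ℝ) * (1 - (P (goodEvent X (wball N (wfun α f₀)) α χ t₀)).toReal) := by
    filter_upwards [hev, eventually_ge_atTop 1] with t ht ht1
    rw [Real.rpow_one]
    nlinarith
  exact absurd (ge_of_tendsto h1 h2) (not_le.mpr hc)

end Pool.Agent.Results.MP_d9d0cb_pr.NoRateAboveOne
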